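import Pool.Agent.N332.GK.Defs
import Pool.Agent.N286.LS.Star4Aux
import Pool.Agent.N263.LS.KS9
import Pool.Agent.N849.LS.KS10

set_option autoImplicit false

/-! GK/S1: the class inequality in `L^(2k)` (project GK, helper332). -/

namespace Pool.Agent.N284.GK

open Finset Pool.Agent.H384R3.SPk Pool.Agent.N356.SP MeasureTheory
open Pool.Agent.N645.LS (cosp_cont)
open Pool.Agent.N286.LS (cs)
open Pool.Agent.N332.GK

/-- S1: the class inequality in `L^(2k)` -/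
theorem stark {m : ℕ} {C : Finset (ZMod m)} {θ : ZMod m → ZMod m → ℝ} {g f : ℤ →₀ ℝ}
    (HM : ∀ i : ℕ, ∫ x in (0:ℝ)..1, GA (muf C f x) (wf C θ f x) i ≤ Mc (i + 4) f)
    (HN : ∀ {μ w : ℝ}, 0 ≤ μ → 0 ≤ w → ∀ i : ℕ, 0 ≤ GA μ w i)
    (HC : ∀ {μ w : ℝ → ℝ}, Continuous μ → Continuous w → ∀ i : ℕ,
      Continuous fun x => GA (μ x) (w x) i)
    (HP : ∀ {k : ℕ}, 6 ≤ k → ∀ {μ w ν : ℝ}, 0 ≤ μ → 0 ≤ w → 0 ≤ ν → ν ^ k = GA μ w (k - 4) →
      (2 * (k : ℝ) - 1) / ck k * μ ≤ ν ∧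
        μ * w ≤ Kb (1 / (k : ℝ)) * (ck k / (2 * (k : ℝ) - 1)) ^ 3 * ν ^ 2 *
          (ν - (2 * (k : ℝ) - 1) / ck k * μ))
    (HH : ∀ {k j : ℕ}, 1 ≤ k → j ≤ k → ∀ {q ν : ℝ → ℝ}, Continuous q → Continuous ν →
      (∀ x, 0 ≤ ν x) → ∀ {G y : ℝ}, 0 < G → 0 ≤ y → ∫ x in (0:ℝ)..1, q x ^ (2 * k) ≤ G →
      ∫ x in (0:ℝ)..1, ν x ^ k ≤ G * y ^ k →
      ∫ x in (0:ℝ)..1, q x ^ (2 * k - 2 * j) * ν x ^ j ≤ G * y ^ j)
    {k : ℕ} (hk : 6 ≤ k) (h : GoodC C θ) (hg0 : ∀ n, 0 ≤ g n) (hf0 : ∀ n, 0 ≤ f n)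
    (hg : ∀ n ∈ g.support, ((n : ℤ) : ZMod m) = 0)
    (hf : ∀ n ∈ f.support, ((n : ℤ) : ZMod m) ∈ C) {G y : ℝ} (hG0 : 0 < G) (hy : 0 ≤ y)
    (hG : Mc k g ≤ G) (hF : Mc k f ≤ G * y ^ k) :
    0 ≤ AJ (2 * k - 2) 2 g f ∧ (2 * (k : ℝ) - 1) / ck k * AJ (2 * k - 2) 2 g f ≤ G * y ∧
      AJ (2 * k - 3) 3 g f ^ 2 ≤ Kb (1 / (k : ℝ)) * (ck k / (2 * (k : ℝ) - 1)) ^ 3 * G * y ^ 2 *
        (G * y - (2 * (k : ℝ) - 1) / ck k * AJ (2 * k - 2) 2 g f) := by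
  have hk6 : (6:ℝ) ≤ k := by exact_mod_cast hk
  have hmu : Continuous (muf C f) := Pool.Agent.N263.LS.muf_cont
  have hwf : Continuous (wf C θ f) := Pool.Agent.N263.LS.wf_cont
  have hg' := cosp_cont g
  have mu0 : ∀ x, 0 ≤ muf C f x := fun x => by
    unfold muf
    exact Finset.sum_nonneg fun c _ => by positivity
  have w0 : ∀ x, 0 ≤ wf C θ f x := fun x => by
    unfold wf
    exact Finset.sum_nonneg fun c _ => by positivity
  have ck0 : 0 ≤ ck k := by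
    unfold ck
    refine Real.rpow_nonneg (div_nonneg (pow_nonneg (by linarith) _) (by positivity)) _
  have Kb0 : 0 ≤ Kb (1 / (k : ℝ)) := by
    unfold Kb
    positivity
  obtain ⟨κ, hκ⟩ : ∃ κ : ℝ, κ = Kb (1 / (k : ℝ)) * (ck k / (2 * (k : ℝ) - 1)) ^ 3 := ⟨_, rfl⟩
  have κ0 : 0 ≤ κ := by
    rw [hκ]
    exact mul_nonneg Kb0 (pow_nonneg (div_nonneg ck0 (by linarith)) _)
  obtain ⟨a, ha⟩ : ∃ a : ℝ, a = (2 * (k : ℝ) - 1) / ck k := ⟨_, rfl⟩
  rw [← hκ, ← ha]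
  have gac : Continuous fun x => GA (muf C f x) (wf C θ f x) (k - 4) := HC hmu hwf _
  have hS0 : ∀ x, 0 ≤ GA (muf C f x) (wf C θ f x) (k - 4) := fun x => HN (mu0 x) (w0 x) _
  obtain ⟨ν, hν⟩ : ∃ ν : ℝ → ℝ, ν = fun x => (GA (muf C f x) (wf C θ f x) (k - 4)) ^
      ((1:ℝ) / k) := ⟨_, rfl⟩
  have ν0 : ∀ x, 0 ≤ ν x := fun x => by
    rw [hν]
    exact Real.rpow_nonneg (hS0 x) _
  have νk : ∀ x, ν x ^ k = GA (muf C f x) (wf C θ f x) (k - 4) := fun x => by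
    rw [hν]
    show ((GA (muf C f x) (wf C θ f x) (k - 4)) ^ ((1:ℝ) / k)) ^ k = _
    rw [← Real.rpow_natCast, ← Real.rpow_mul (hS0 x)]
    have : (1:ℝ) / k * (k : ℝ) = 1 := by field_simp
    rw [this, Real.rpow_one]
  have νc : Continuous ν := by
    rw [hν]
    exact gac.rpow_const fun x => Or.inr (by positivity)
  have hpw' : ∀ x, a * muf C f x ≤ ν x ∧
      muf C f x * wf C θ f x ≤ κ * ν x ^ 2 * (ν x - a * muf C f x) := by
    intro x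
    have := HP hk (mu0 x) (w0 x) (ν0 x) (νk x)
    rw [← hκ, ← ha] at this
    exact this
  -- the `k`-th moment of `ν`
  have hνk : ∫ x in (0:ℝ)..1, ν x ^ k ≤ G * y ^ k := by
    refine le_trans (le_of_eq ?_) ((HM (k - 4)).trans ?_)
    · simp_rw [νk]
    · rw [Nat.sub_add_cancel (by omega)]
      exact hF
  have hg2k : ∫ x in (0:ℝ)..1, cosp g x ^ (2 * k) ≤ G := hG
  have b1 : ∫ x in (0:ℝ)..1, cosp g x ^ (2 * k - 2) * ν x ≤ G * y := by
    have := HH (k := k) (j := 1) (by omega) (by omega) hg' νc ν0 hG0 hy hg2k hνk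
    simpa using this
  have b2 : ∫ x in (0:ℝ)..1, cosp g x ^ (2 * k - 4) * ν x ^ 2 ≤ G * y ^ 2 :=
    HH (k := k) (j := 2) (by omega) (by omega) hg' νc ν0 hG0 hy hg2k hνk
  have ev2 : ∀ x, 0 ≤ cosp g x ^ (2 * k - 2) := fun x =>
    Even.pow_nonneg ⟨k - 1, by omega⟩ _
  have ev4 : ∀ x, 0 ≤ cosp g x ^ (2 * k - 4) := fun x =>
    Even.pow_nonneg ⟨k - 2, by omega⟩ _
  have h2 : AJ (2 * k - 2) 2 g f = ∫ x in (0:ℝ)..1, cosp g x ^ (2 * k - 2) * muf C f x :=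
    Pool.Agent.N849.LS.AJ2_eq h.neg hg0 hf0 hg hf (2 * k - 2)
  have hsub : ∫ x in (0:ℝ)..1, cosp g x ^ (2 * k - 2) * (ν x - a * muf C f x) =
      (∫ x in (0:ℝ)..1, cosp g x ^ (2 * k - 2) * ν x) - a * AJ (2 * k - 2) 2 g f := by
    rw [h2, ← intervalIntegral.integral_const_mul, ← intervalIntegral.integral_sub]
    · refine intervalIntegral.integral_congr fun x _ => ?_
      show cosp g x ^ (2 * k - 2) * (ν x - a * muf C f x) =
        cosp g x ^ (2 * k - 2) * ν x - a * (cosp g x ^ (2 * k - 2) * muf C f x)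
      ring
    · exact (by fun_prop : Continuous fun x => cosp g x ^ (2 * k - 2) * ν x).intervalIntegrable _ _
    · exact (by fun_prop : Continuous fun x =>
        a * (cosp g x ^ (2 * k - 2) * muf C f x)).intervalIntegrable _ _
  have hsub0 : 0 ≤ ∫ x in (0:ℝ)..1, cosp g x ^ (2 * k - 2) * (ν x - a * muf C f x) :=
    intervalIntegral.integral_nonneg zero_le_one fun x _ =>
      mul_nonneg (ev2 x) (sub_nonneg.2 (hpw' x).1)
  refine ⟨?_, ?_, ?_⟩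
  · rw [h2]
    exact intervalIntegral.integral_nonneg zero_le_one fun x _ =>
      mul_nonneg (ev2 x) (mu0 x)
  · linarith
  · obtain ⟨T, Tc, T2, hT⟩ := Pool.Agent.N849.LS.AJ3_eq h hf0 hf
    rw [hT g hg0 hg (2 * k - 3)]
    have t1 := cs (H := fun x => cosp g x ^ (2 * k - 3) * T x)
      (P := fun x => κ * (cosp g x ^ (2 * k - 4) * ν x ^ 2))
      (Q := fun x => cosp g x ^ (2 * k - 2) * (ν x - a * muf C f x)) (by fun_prop) (by fun_prop)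
      (by fun_prop) (fun x => mul_nonneg κ0 (mul_nonneg (ev4 x) (sq_nonneg _)))
      (fun x => mul_nonneg (ev2 x) (sub_nonneg.2 (hpw' x).1))
      (fun x => by
        have s1 := (T2 x).trans (hpw' x).2
        have s2 : (0:ℝ) ≤ cosp g x ^ (2 * k - 4) * cosp g x ^ (2 * k - 2) :=
          mul_nonneg (ev4 x) (ev2 x)
        have s3 : (cosp g x ^ (2 * k - 3)) ^ 2 =
            cosp g x ^ (2 * k - 4) * cosp g x ^ (2 * k - 2) := by
          rw [← pow_mul, ← pow_add]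
          congr 1
          omega
        calc (cosp g x ^ (2 * k - 3) * T x) ^ 2 =
              cosp g x ^ (2 * k - 4) * cosp g x ^ (2 * k - 2) * T x ^ 2 := by
                rw [mul_pow, s3]
          _ ≤ cosp g x ^ (2 * k - 4) * cosp g x ^ (2 * k - 2) *
              (κ * ν x ^ 2 * (ν x - a * muf C f x)) :=
            mul_le_mul_of_nonneg_left s1 s2
          _ = _ := by ring)
    refine t1.trans ?_
    rw [intervalIntegral.integral_const_mul, hsub]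
    have s3 : 0 ≤ (∫ x in (0:ℝ)..1, cosp g x ^ (2 * k - 2) * ν x) - a * AJ (2 * k - 2) 2 g f := by
      rw [← hsub]
      exact hsub0
    calc κ * (∫ x in (0:ℝ)..1, cosp g x ^ (2 * k - 4) * ν x ^ 2) *
          ((∫ x in (0:ℝ)..1, cosp g x ^ (2 * k - 2) * ν x) - a * AJ (2 * k - 2) 2 g f)
        ≤ κ * (G * y ^ 2) * (G * y - a * AJ (2 * k - 2) 2 g f) := by
          refine mul_le_mul (mul_le_mul_of_nonneg_left b2 κ0) (by linarith) s3 (by positivity)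
      _ = _ := by ring

end Pool.Agent.N284.GK
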